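import Pool.Agent.N566.VV.Defs3

/-!
# Project VV, part 23: the diagonal entries of a (1,1)-tangle operator agree
-/

set_option autoImplicit false

namespace Pool.Agent.N618.VV

open Pool.Agent.H835R2.Knot
open Pool.Agent.H550R3.Jones (br brf Adm crossP crossN gen rep tail Gen)
open Pool.Agent.N566.VV
open Finset

section
variable {ι : Type} [Fintype ι] [DecidableEq ι]

theorem updS_fst (i : ℕ) (x y : ι) (σ : ℕ → ι) : updS i x y σ i = x := by
  simp [updS]

theorem updS_snd (i : ℕ) (x y : ι) (σ : ℕ → ι) : updS i x y σ (i + 1) = y := by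
  simp [updS]

theorem updS_updS (i : ℕ) (x y x' y' : ι) (σ : ℕ → ι) :
    updS i x' y' (updS i x y σ) = updS i x' y' σ := by
  funext p
  simp only [updS]
  split_ifs <;> rfl

theorem updS_self (i : ℕ) (σ : ℕ → ι) : updS i (σ i) (σ (i + 1)) σ = σ := by
  funext p
  simp only [updS]
  split_ifs with h1 h2
  · rw [h1]
  · rw [h2]
  · rfl

theorem Xl_mul (A B : Matrix (ι × ι) (ι × ι) ℂ) (i : ℕ) (f : F ι) :
    Xl (A * B) i f = Xl A i (Xl B i f) := by
  funext σ
  simp only [Xl, updS_fst, updS_snd, updS_updS, Matrix.mul_apply, Finset.sum_mul, Finset.mul_sum]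
  rw [Finset.sum_comm]
  refine Finset.sum_congr rfl fun p _ => Finset.sum_congr rfl fun q _ => ?_
  ring

theorem Xl_one (i : ℕ) (f : F ι) : Xl (1 : Matrix (ι × ι) (ι × ι) ℂ) i f = f := by
  funext σ
  simp only [Xl, Matrix.one_apply, ite_mul, one_mul, zero_mul]
  rw [Finset.sum_ite_eq]
  simp [updS_self]

end

theorem Xl_pow_Ea (N : ℕ) (v : ℂ) (n i : ℕ) (A : Matrix (Fin N × Fin N) (Fin N × Fin N) ℂ)
    (h : ∀ f : F (Fin N), Xl A i (Ea N v n f) = Ea N v n (Xl A i f)) (m : ℕ) :
    ∀ f : F (Fin N), Xl (A ^ m) i (Ea N v n f) = Ea N v n (Xl (A ^ m) i f) := by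
  induction m with
  | zero =>
    intro f
    rw [pow_zero, Xl_one, Xl_one]
  | succ m ih =>
    intro f
    rw [pow_succ, Xl_mul, Xl_mul, h, ih]

theorem fn_Ea (h2 : S_EX2) (h3 : S_EB) (h4 : S_ED) (N : ℕ) (u : ℂ) (hu : Gen u) (P : Pc)
    (n n' : ℕ) (hP : P.strands n = some n') (f : F (Fin N)) :
    P.fn N (u ^ 2) (Ea N (u ^ 2) n f) = Ea N (u ^ 2) n' (P.fn N (u ^ 2) f) := by
  have hA : Adm N (u ^ 2) := ⟨pow_ne_zero 2 hu.1, fun k hk _ => hu.2 k hk⟩
  cases P with
  | cup i =>
    simp only [Pc.strands] at hP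
    split_ifs at hP with h
    simp only [Option.some.injEq] at hP
    subst hP
    exact h4 N _ hA i n h f
  | cap i =>
    simp only [Pc.strands] at hP
    split_ifs at hP with h
    simp only [Option.some.injEq] at hP
    subst hP
    obtain ⟨k, rfl⟩ : ∃ k, n = k + 2 := ⟨n - 2, by omega⟩
    have := h3 N _ hA i k (by omega) f
    simpa [Pc.fn] using this
  | tw i s m =>
    simp only [Pc.strands] at hP
    split_ifs at hP with h
    simp only [Option.some.injEq] at hP
    subst hP
    exact Xl_pow_Ea N _ n i _ (fun f => h2 N u hu s i n h f) m f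

theorem foldl_none (T : List Pc) :
    T.foldl (fun n P => n.bind P.strands) none = none := by
  induction T with
  | nil => rfl
  | cons P T ih => simpa using ih

theorem foldl_cons {P : Pc} {T : List Pc} {n n' : ℕ}
    (h : (P :: T).foldl (fun n P => n.bind P.strands) (some n) = some n') :
    ∃ m, P.strands n = some m ∧ T.foldl (fun n P => n.bind P.strands) (some m) = some n' := by
  rw [List.foldl_cons] at h
  cases hm : P.strands n with
  | none =>
    have : (some n).bind P.strands = none := by simpa using hm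
    rw [this, foldl_none] at h
    cases h
  | some m =>
    have : (some n).bind P.strands = some m := by simpa using hm
    rw [this] at h
    exact ⟨m, rfl, h⟩

theorem runF_Ea (h2 : S_EX2) (h3 : S_EB) (h4 : S_ED) (N : ℕ) (u : ℂ) (hu : Gen u) (T : List Pc) :
    ∀ (n n' : ℕ), T.foldl (fun n P => n.bind P.strands) (some n) = some n' →
    ∀ f : F (Fin N), runF N (u ^ 2) T (Ea N (u ^ 2) n f) = Ea N (u ^ 2) n' (runF N (u ^ 2) T f) := by
  induction T with
  | nil =>
    intro n n' h f
    simp only [List.foldl_nil, Option.some.injEq] at h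
    subst h
    rfl
  | cons P T ih =>
    intro n n' h f
    obtain ⟨m, hm, hT⟩ := foldl_cons h
    show runF N (u ^ 2) T (P.fn N (u ^ 2) (Ea N (u ^ 2) n f)) =
      Ea N (u ^ 2) n' (runF N (u ^ 2) T (P.fn N (u ^ 2) f))
    rw [fn_Ea h2 h3 h4 N u hu P n m hm f, ih m n' hT]

theorem runF_runL (h1 : S_LST) (N : ℕ) (v : ℂ) (T : List Pc) :
    ∀ (n n' : ℕ), T.foldl (fun n P => n.bind P.strands) (some n) = some n' →
    ∀ (f : F (Fin N)) (G : Fin N → List (Fin N) → ℂ),
    (∀ σ, f σ = G (σ n) ((List.range n).map σ)) →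
    ∀ σ, runF N v T f σ = runL N v T (G (σ n')) ((List.range n').map σ) := by
  induction T with
  | nil =>
    intro n n' h f G hf σ
    simp only [List.foldl_nil, Option.some.injEq] at h
    subst h
    exact hf σ
  | cons P T ih =>
    intro n n' h f G hf σ
    obtain ⟨m, hm, hT⟩ := foldl_cons h
    show runF N v T (P.fn N v f) σ = runL N v T (P.act N v (G (σ n'))) ((List.range n').map σ)
    exact ih m n' hT (P.fn N v f) (fun y => P.act N v (G y)) (h1 N v P n m hm f G hf) σ

theorem act_smul (N : ℕ) (v c : ℂ) (P : Pc) (g : List (Fin N) → ℂ) :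
    P.act N v (fun s => c * g s) = fun s => c * P.act N v g s := by
  funext s
  cases P with
  | cup i =>
    simp only [Pc.act]
    split
    · ring
    · simp
  | cap i =>
    simp only [Pc.act, Finset.mul_sum]
    refine Finset.sum_congr rfl fun p _ => ?_
    ring
  | tw i b m =>
    simp only [Pc.act]
    split
    · rw [Finset.mul_sum]
      refine Finset.sum_congr rfl fun p _ => ?_
      ring
    · simp

theorem runL_smul (N : ℕ) (v c : ℂ) (T : List Pc) : ∀ g : List (Fin N) → ℂ,
    runL N v T (fun s => c * g s) = fun s => c * runL N v T g s := by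
  induction T with
  | nil =>
    intro g
    rfl
  | cons P T ih =>
    intro g
    show runL N v T (P.act N v (fun s => c * g s)) = fun s => c * runL N v T (P.act N v g) s
    rw [act_smul, ih]

theorem Ea_one (N : ℕ) (v : ℂ) (f : F (Fin N)) (σ : ℕ → Fin N) :
    Ea N v 1 f σ = if h : (σ 0 : ℕ) + 1 < N then
      br v ((N : ℤ) - ((σ 0 : ℕ) + 1)) * f (Function.update σ 0 ⟨(σ 0 : ℕ) + 1, h⟩) else 0 := by
  simp [Ea]

theorem diag_step (h1 : S_LST) (h2 : S_EX2) (h3 : S_EB) (h4 : S_ED) (N : ℕ) (u : ℂ) (hu : Gen u)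
    (T : List Pc) (hT : Tang T) (z : ℕ) (hz : z + 1 < N) :
    runL N (u ^ 2) T (fun s => if s = [⟨z + 1, hz⟩] then 1 else 0) [⟨z + 1, hz⟩] =
      runL N (u ^ 2) T (fun s => if s = [⟨z, by omega⟩] then 1 else 0) [⟨z, by omega⟩] := by
  set v : ℂ := u ^ 2 with hv
  set a : Fin N := ⟨z + 1, hz⟩ with ha
  set b : Fin N := ⟨z, by omega⟩ with hb
  set c : ℂ := br v ((N : ℤ) - ((z : ℕ) + 1)) with hc
  have hc0 : c ≠ 0 := by
    have := hu.2 (N - (z + 1)) (by omega)
    rw [hc, hv]
    have h5 : ((N : ℤ) - ((z : ℕ) + 1)) = ((N - (z + 1) : ℕ) : ℤ) := by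
      push_cast [Nat.cast_sub hz.le]
      ring
    rw [h5]
    exact this
  let f : F (Fin N) := fun σ => if σ 0 = a then 1 else 0
  let G : Fin N → List (Fin N) → ℂ := fun _ s => if s = [a] then 1 else 0
  let G' : Fin N → List (Fin N) → ℂ := fun _ s => c * (if s = [b] then 1 else 0)
  have hf : ∀ σ, f σ = G (σ 1) ((List.range 1).map σ) := by
    intro σ
    simp [f, G]
  have hf' : ∀ σ, Ea N v 1 f σ = G' (σ 1) ((List.range 1).map σ) := by
    intro σ
    rw [Ea_one]
    simp only [f, G', Function.update_self]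
    have e : ((List.range 1).map σ = [b]) ↔ σ 0 = b := by simp
    by_cases hσ : σ 0 = b
    · have h6 : (σ 0 : ℕ) = z := by rw [hσ]
      rw [dif_pos (by omega), if_pos, if_pos (e.2 hσ), h6]
      rw [ha]
      exact Fin.ext (by simp [h6])
    · rw [if_neg (fun h => hσ (e.1 h)), mul_zero]
      split_ifs with h7 h8
      · exfalso
        apply hσ
        have h9 : (σ 0 : ℕ) + 1 = z + 1 := by
          have := congrArg Fin.val h8
          simpa [ha] using this
        exact Fin.ext (by simp [hb]; omega)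
      · simp
      · rfl
  have hcomm := runF_Ea h2 h3 h4 N u hu T 1 1 hT f
  rw [← hv] at hcomm
  let σ : ℕ → Fin N := fun _ => b
  have hL := runF_runL h1 N v T 1 1 hT (Ea N v 1 f) G' hf' σ
  have hR : Ea N v 1 (runF N v T f) σ = c * runL N v T (fun s => if s = [a] then 1 else 0) [a] := by
    rw [Ea_one]
    have hs : ((σ 0 : Fin N) : ℕ) = z := rfl
    rw [dif_pos (by rw [hs]; exact hz)]
    have := runF_runL h1 N v T 1 1 hT f G hf (Function.update σ 0 a)
    have h10 : (List.range 1).map (Function.update σ 0 a) = [a] := by simp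
    rw [h10] at this
    rw [← this]
  rw [congrFun hcomm σ, hR] at hL
  have h11 : (List.range 1).map σ = [b] := by simp [σ]
  rw [h11] at hL
  have h12 : runL N v T (G' (σ 1)) [b] = c * runL N v T (fun s => if s = [b] then 1 else 0) [b] := by
    have := runL_smul N v c T (fun s => if s = [b] then 1 else 0)
    exact congrFun this [b]
  rw [h12] at hL
  exact mul_left_cancel₀ hc0 hL

theorem s_sch3 (h1 : S_LST) (h2 : S_EX2) (h3 : S_EB) (h4 : S_ED) :
    Pool.Agent.N566.VV.S_SCH3 := by
  intro N u hu T hT h x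
  obtain ⟨x, hx⟩ := x
  induction x with
  | zero => rfl
  | succ z ih =>
    rw [diag_step h1 h2 h3 h4 N u hu T hT z hx]
    exact ih (by omega)

end Pool.Agent.N618.VV

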